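import Pool.Agent.Helper82.SP.GoalsC
import Pool.Agent.Helper82.SP.B14

/-!
# Project SP, HBC: all placements of the tetrahedron on the half ball
-/

set_option autoImplicit false

namespace Pool.Agent.Helper43.SP

open Matrix Real Pool.Agent.Helper82.SP
open Pool.Agent.Helper26.LU (V M3 SO3 nrm sph proj Bm Rot crossM mem_SO3 SO3_left dot_mulVec)

theorem goalHBC (hHBF : G_HBF) (hTB : G_TB) : G_HBC := by
  intro v a ht R hR t hx
  have ha : 0 < a := ht.1
  have ha2 : 0 < a ^ 2 / 2 := by positivity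
  obtain ⟨h1, h2, -, -⟩ := hTB v a ht
  obtain ⟨-, -, hF⟩ := hHBF a ha
  have hRR : R * Rᵀ = 1 := ((mem_SO3 R).1 hR).1
  obtain ⟨w, hw⟩ : ∃ w : V, w = -(Rᵀ *ᵥ t) := ⟨_, rfl⟩
  have hRw : R *ᵥ w = -t := by
    rw [hw, mulVec_neg, mulVec_mulVec, hRR, one_mulVec]
  have hxi : ∀ i, R *ᵥ v i + t = R *ᵥ (v i - w) := by
    intro i; rw [mulVec_sub, hRw, sub_neg_eq_add]
  have hmem : ∀ i, R *ᵥ v i + t ∈ half a ∧
      ((R *ᵥ v i + t) 2 = 0 ∨ (R *ᵥ v i + t) ⬝ᵥ (R *ᵥ v i + t) = a ^ 2) := by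
    intro i
    have := hx i
    rw [hF] at this
    exact this
  obtain ⟨β, hβ⟩ : ∃ β : Fin 4 → ℝ, β = bc v a w := ⟨_, rfl⟩
  have hs : ∑ i, β i = 1 := by rw [hβ]; exact h1 w
  have hv : ∑ i, β i • v i = w := by rw [hβ]; exact h2 w
  obtain ⟨h, hh⟩ : ∃ h : Fin 4 → ℝ, h = fun i => (R *ᵥ v i + t) 2 := ⟨_, rfl⟩
  have hh0 : ∀ i, 0 ≤ h i := by
    intro i; rw [hh]; exact (hmem i).1.2
  have hdist : ∀ k, (R *ᵥ v k + t) ⬝ᵥ (R *ᵥ v k + t)
      = a ^ 2 / 2 * (∑ i, β i ^ 2 - 2 * β k + 1) := by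
    intro k
    rw [hxi k, dot_mulVec hR]
    exact dist_formula hTB ht hs hv k
  obtain ⟨m, hm⟩ : ∃ m : ℝ, m = (∑ i, β i ^ 2 - 1) / 2 := ⟨_, rfl⟩
  have hmk : ∀ k, m ≤ β k := by
    intro k
    have e := (hmem k).1.1
    rw [hdist k] at e
    have e2 : a ^ 2 / 2 * (∑ i, β i ^ 2 - 2 * β k + 1) ≤ a ^ 2 / 2 * 2 := by linarith
    have e3 := le_of_mul_le_mul_left e2 ha2
    rw [hm]; linarith
  have hmk' : ∀ k, h k ≠ 0 → β k = m := by
    intro k hk
    have e := ((hmem k).2).resolve_left (by rw [hh] at hk; exact hk)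
    rw [hdist k] at e
    have e2 : a ^ 2 / 2 * (∑ i, β i ^ 2 - 2 * β k + 1) = a ^ 2 / 2 * 2 := by linarith
    have e3 := mul_left_cancel₀ ha2.ne' e2
    rw [hm]; linarith
  have hsum : ∑ i, β i * h i = m * ∑ i, h i := by
    rw [Finset.mul_sum]
    refine Finset.sum_congr rfl fun i _ => ?_
    by_cases hi : h i = 0
    · rw [hi]; simp
    · rw [hmk' i hi]
  have hbal : ∑ i, β i * h i = 0 := by
    have e1 : ∑ i, β i • (R *ᵥ v i + t) = 0 := by
      have e2 : ∀ i, β i • (R *ᵥ v i + t) = R *ᵥ (β i • v i) + β i • t := by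
        intro i; rw [smul_add, mulVec_smul]
      rw [Finset.sum_congr rfl fun i _ => e2 i, Finset.sum_add_distrib, ← Finset.sum_smul, hs,
        one_smul, ← mulVec_sum, hv, hRw]
      simp
    have e3 := congrFun e1 2
    rw [Finset.sum_apply] at e3
    rw [hh]
    simpa [Pi.smul_apply, smul_eq_mul] using e3
  have hnz : ∑ i, h i ≠ 0 := by
    intro h0
    have hall : ∀ i, h i = 0 := by
      intro i
      exact (Finset.sum_eq_zero_iff_of_nonneg (fun m _ => hh0 m)).1 h0 i (Finset.mem_univ i)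
    have hc : ∀ i, R 2 ⬝ᵥ v i = -t 2 := by
      intro i
      have e := hall i
      rw [hh] at e
      have e2 : R 2 ⬝ᵥ v i + t 2 = 0 := e
      linarith
    have hx2 : ∀ x : V, R 2 ⬝ᵥ x = -t 2 := by
      intro x
      rw [← h2 x, dotProduct_sum]
      have e2 : ∀ i, R 2 ⬝ᵥ (bc v a x i • v i) = bc v a x i * -t 2 := by
        intro i; rw [dotProduct_smul, hc i, smul_eq_mul]
      rw [Finset.sum_congr rfl fun i _ => e2 i, ← Finset.sum_mul, h1 x, one_mul]
    have e4 := hx2 (R 2)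
    have e5 := hx2 0
    rw [dotProduct_zero] at e5
    have e6 : R 2 ⬝ᵥ R 2 = 1 := by
      have := congrFun (congrFun hRR 2) 2
      rw [one_apply_eq] at this
      rw [← this]
      rfl
    rw [e6, ← e5] at e4
    exact one_ne_zero e4
  have hm0 : m = 0 := by
    rw [hsum] at hbal
    exact (mul_eq_zero.1 hbal).resolve_right hnz
  have hsq : ∑ i, β i ^ 2 = 1 := by
    rw [hm] at hm0; linarith
  have hβ0 : ∀ k, 0 ≤ β k := by intro k; rw [← hm0]; exact hmk k
  have hβ1 : ∀ k, β k ≤ 1 := by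
    intro k; rw [← hs]
    exact Finset.single_le_sum (fun i _ => hβ0 i) (Finset.mem_univ k)
  have hz : ∀ k, β k * (1 - β k) = 0 := by
    have e : ∑ i, β i * (1 - β i) = 0 := by
      have e2 : ∀ i, β i * (1 - β i) = β i - β i ^ 2 := by intro i; ring
      rw [Finset.sum_congr rfl fun i _ => e2 i, Finset.sum_sub_distrib, hs, hsq, sub_self]
    intro k
    exact (Finset.sum_eq_zero_iff_of_nonneg
      (fun i _ => mul_nonneg (hβ0 i) (by linarith [hβ1 i]))).1 e k (Finset.mem_univ k)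
  obtain ⟨k, hk⟩ : ∃ k, β k = 1 := by
    by_contra hne
    push Not at hne
    have e : ∀ i, β i = 0 := by
      intro i
      rcases mul_eq_zero.1 (hz i) with h' | h'
      · exact h'
      · exact absurd (by linarith) (hne i)
    have : ∑ i, β i = 0 := Finset.sum_eq_zero fun i _ => e i
    rw [hs] at this
    exact one_ne_zero this
  have hdk : (R *ᵥ v k + t) ⬝ᵥ (R *ᵥ v k + t) = 0 := by
    rw [hdist k, hsq, hk]; ring
  have hk0 : R *ᵥ v k + t = 0 := dotProduct_self_eq_zero.1 hdk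
  have htk : t = -(R *ᵥ v k) := eq_neg_of_add_eq_zero_right hk0
  refine ⟨k, htk, fun j => ?_⟩
  have e := hh0 j
  rw [hh] at e
  have e2 : 0 ≤ (R *ᵥ v j) 2 + t 2 := e
  have e3 : t 2 = -(R *ᵥ v k) 2 := by
    have := congrFun htk 2
    rw [this]; rfl
  rw [e3] at e2
  linarith

end Pool.Agent.Helper43.SP
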